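import Pool.Agent.Lib.MP_493565_co.Defs

/-! Runs of the recursive WL method, and orbits on tuples. -/

set_option autoImplicit false

namespace Pool.Agent.Lib.MP_493565_co

/-- The WL vertex colour class of `v` in the coloured graph `(G, c)` is not a singleton. -/
def InBigClass {V C : Type} [Fintype V] (k : ℕ) (G : SimpleGraph V) (c : V → C) (v : V) : Prop :=
  ∃ w : V, w ≠ v ∧ SameVertexColour k (stableWL k G c) v w

/-- Every run of the recursive `k`-dim WL method on `(G, c)` that stabilises vertices from
non-singleton classes goes wrong for the first time after exactly `n` stabilisations: before that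
the classes are the orbits and some class is not a singleton, and after the `n`-th stabilisation
the classes are not the orbits. -/
def FailsFirstAt {V : Type} [Fintype V] (k : ℕ) (G : SimpleGraph V) :
    ℕ → {C : Type} → (V → C) → Prop
  | 0, _, c => ¬ RefinesToOrbits k G c
  | n + 1, _, c => RefinesToOrbits k G c ∧ (∃ v : V, InBigClass k G c v) ∧
      ∀ v : V, InBigClass k G c v → FailsFirstAt k G n (individualise c v)

/-- The classes of the stable colouring of `k`-tuples are the orbits of the group of
colour-preserving automorphisms on `k`-tuples. -/
def RefinesTuplesToOrbits {V C : Type} [Fintype V] (k : ℕ) (G : SimpleGraph V) (c : V → C) :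
    Prop :=
  ∀ S S' : Fin k → V, stableWL k G c S = stableWL k G c S' ↔
    ∃ φ : G ≃g G, (∀ x, c (φ x) = c x) ∧ ∀ i, φ (S i) = S' i

end Pool.Agent.Lib.MP_493565_co
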