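import Pool.Agent.Lib.MP_493565_co.Indiv
import Pool.Agent.Lib.MP_493565_co.Dep.Defs

/-! Colour preserving and anchored bisimulations. -/

set_option autoImplicit false

namespace Pool.Agent.Lib.MP_493565_co.Dep

open Finset

variable {V C : Type} [Fintype V] {k : ℕ} {G : SimpleGraph V} {c : V → C}

theorem col_of_wl {t : ℕ} {S S' : Fin k → V} (h : wl k G c t S = wl k G c t S') (i : Fin k) :
    c (S i) = c (S' i) :=
  congrFun (congrArg (fun p => p.2.2) (wl_zero_of _ _ _ h)) i

theorem eq_of_wl {t : ℕ} {S S' : Fin k → V} (h : wl k G c t S = wl k G c t S') (i j : Fin k) :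
    S i = S j ↔ S' i = S' j :=
  iff_of_eq (congrFun (congrFun (congrArg (fun p => p.1) (wl_zero_of _ _ _ h)) i) j)

theorem adj_of_wl {t : ℕ} {S S' : Fin k → V} (h : wl k G c t S = wl k G c t S') (i j : Fin k) :
    G.Adj (S i) (S j) ↔ G.Adj (S' i) (S' j) :=
  iff_of_eq (congrFun (congrFun (congrArg (fun p => p.2.1) (wl_zero_of _ _ _ h)) i) j)

theorem col_bisim (hk : 2 ≤ k) {u v : V} (h : SameVertexColour k (stableWL k G c) u v) :
    ∃ R, Bisim G R ∧ R u v ∧ ∀ x y, R x y → c x = c y := by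
  refine ⟨_, bisim_stable (c := c) hk, ?_, ?_⟩
  · obtain ⟨j, rfl⟩ : ∃ j, k = j + 1 := ⟨k - 1, by omega⟩
    obtain ⟨S, S', h1, h2, h3⟩ := exists_tuples_of_sameVertexColour u v j _ h
    exact ⟨S, S', 0, h1, h2, h3⟩
  · rintro x y ⟨S, S', i, hS, rfl, rfl⟩
    exact col_of_wl hS i

theorem anchored_bisim {S S' : Fin k → V} (h : stableWL k G c S = stableWL k G c S') (i : Fin k) :
    ∃ R, Bisim G R ∧ (∀ x y, R x y → c x = c y) ∧ (∀ x y, R x y → (x = S i ↔ y = S' i)) ∧
      ∀ j, j ≠ i → R (S j) (S' j) := by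
  refine ⟨fun x y => ∃ (T T' : Fin k → V) (j : Fin k), j ≠ i ∧
    stableWL k G c T = stableWL k G c T' ∧ T i = S i ∧ T' i = S' i ∧ T j = x ∧ T' j = y,
    ?_, ?_, ?_, fun j hj => ⟨S, S', j, hj, h, rfl, rfl, rfl, rfl⟩⟩
  · rintro u v ⟨T, T', j, hj, hT, h1, h2, rfl, rfl⟩
    obtain ⟨φ, hφ⟩ := exists_equiv_of_map_eq _ _
      (congrArg Prod.snd (isStableRound_stableRound T T' hT))
    refine ⟨φ, fun x => ⟨?_, Function.update T j x, Function.update T' j (φ x), j, hj,
      (congrFun (hφ x) j).symm, ?_, ?_, by simp, by simp⟩⟩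
    · have := adj_of_wl (congrFun (hφ x) i) j i
      simpa only [Function.update_of_ne hj, Function.update_self] using this
    · rw [Function.update_of_ne hj.symm, h1]
    · rw [Function.update_of_ne hj.symm, h2]
  · rintro x y ⟨T, T', j, -, hT, -, -, rfl, rfl⟩
    exact col_of_wl hT j
  · rintro x y ⟨T, T', j, -, hT, h1, h2, rfl, rfl⟩
    rw [← h1, ← h2]
    exact eq_of_wl hT j i

theorem stable_of_iso (φ : G ≃g G) (hφ : ∀ x, c (φ x) = c x) (S : Fin k → V) :
    stableWL k G c S = stableWL k G c (φ ∘ S) := by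
  classical
  have h : BackForth k G c (fun f _ => f = φ) := by
    refine ⟨fun f A B h _ => h, ?_, ?_, ?_, ?_⟩
    · rintro f A rfl x - y -
      exact φ.injective.eq_iff
    · rintro f A rfl x - y -
      exact φ.map_adj_iff
    · rintro f A rfl x -
      exact hφ x
    · rintro f A rfl -
      exact ⟨φ.toEquiv, fun x => ⟨φ, rfl, fun _ _ => rfl, rfl⟩⟩
  exact wl_invariant h _ φ S rfl

/-- `c'` is the colouring `c` with the vertices of `Q` stabilised. -/
def Inv {C' : Type} (c : V → C) (c' : V → C') (Q : Finset V) : Prop :=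
  ∀ x y, c' x = c' y ↔ x = y ∨ (x ∉ Q ∧ y ∉ Q ∧ c x = c y)

omit [Fintype V] in
theorem inv_empty : Inv c c ∅ := by
  intro x y
  constructor
  · exact fun h => Or.inr ⟨by simp, by simp, h⟩
  · rintro (rfl | h)
    · rfl
    · exact h.2.2

omit [Fintype V] in
theorem Inv.step [DecidableEq V] {C' : Type} {c' : V → C'} {Q : Finset V} (h : Inv c c' Q)
    (v : V) : Inv c (individualise c' v) (insert v Q) := by
  intro x y
  unfold individualise
  by_cases hx : x = v <;> by_cases hy : y = v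
  · simp [hx, hy]
  · simp [hx, hy, Ne.symm hy]
  · simp [hx, hy]
  · simp [hx, hy, h x y]

omit [Fintype V] in
theorem Inv.col {C' : Type} {c' : V → C'} {Q : Finset V} (h : Inv c c' Q) {x y : V}
    (hxy : c' x = c' y) : c x = c y := by
  rcases (h x y).1 hxy with rfl | h
  · rfl
  · exact h.2.2

omit [Fintype V] in
theorem Inv.anchor {C' : Type} {c' : V → C'} {Q : Finset V} (h : Inv c c' Q) {x y q : V}
    (hq : q ∈ Q) (hxy : c' x = c' y) : x = q ↔ y = q := by
  rcases (h x y).1 hxy with rfl | h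
  · rfl
  · exact ⟨fun e => absurd (e ▸ hq) h.1, fun e => absurd (e ▸ hq) h.2.1⟩

end Pool.Agent.Lib.MP_493565_co.Dep
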