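import Pool.Agent.Lib.MP_493565_co.Dep.Gen
import Pool.Agent.Lib.MP_493565_co.Cay.Main

/-! A layered gadget graph on which every run of the recursive method fails at a given depth. -/

set_option autoImplicit false

namespace Pool.Agent.Lib.MP_493565_co.Dep

open Finset

/-- layers: the sets of unconstrained base vertices -/
abbrev L (m n : ℕ) := {T : Finset (B m) // T.card = n + 1}
/-- rows -/
abbrev Row (m n : ℕ) := L m n → B m → ZMod 2
/-- vertices -/
abbrev U (m n : ℕ) := B m × L m n × Row m n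

variable {m n : ℕ}

def cl (x : U m n) : B m × L m n × (L m n → ZMod 2 × ZMod 2) :=
  (x.1, x.2.1, fun l => (x.2.2 l x.1, if x.1 ∈ l.1 then 0 else par x.1 (x.2.2 l)))

def DG (m n : ℕ) : SimpleGraph (U m n) where
  Adj x y := (x.1 = y.1 ∧ x.2.1 ≠ y.2.1 ∧ x.2.2 = y.2.2) ∨
    (x.1 ≠ y.1 ∧ x.2.1 = y.2.1 ∧ x.2.2 x.2.1 y.1 = y.2.2 x.2.1 x.1)
  symm := ⟨by
    rintro x y (⟨h1, h2, h3⟩ | ⟨h1, h2, h3⟩)
    · exact Or.inl ⟨h1.symm, h2.symm, h3.symm⟩
    · exact Or.inr ⟨h1.symm, h2.symm, by rw [← h2, h3]⟩⟩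
  loopless := ⟨by
    rintro x (⟨-, h2, -⟩ | ⟨h1, -⟩)
    · exact h2 rfl
    · exact h1 rfl⟩

theorem adj_same (v : B m) (l l' : L m n) (x y : Row m n) :
    (DG m n).Adj (v, l, x) (v, l', y) ↔ l ≠ l' ∧ x = y := by
  simp [DG]

theorem adj_diff {v w : B m} (h : v ≠ w) (l l' : L m n) (x y : Row m n) :
    (DG m n).Adj (v, l, x) (w, l', y) ↔ l = l' ∧ x l w = y l v := by
  simp [DG, h]

/-- admissible rows -/
def Adm (v : B m) (r : Row m n) : Prop := ∀ l, r l v = 0 ∧ (v ∉ l.1 → par v (r l) = 0)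

theorem adm_zero (v : B m) : Adm v (0 : Row m n) := fun l => ⟨rfl, fun _ => by simp [par]⟩

theorem add_add_cancel' (x y : Row m n) : x + (x + y) = y := by
  funext l b
  simp [← add_assoc, CharTwo.add_self_eq_zero]

theorem cl_add {v : B m} {r : Row m n} (h : Adm v r) (l : L m n) (x : Row m n) :
    cl (v, l, x + r) = cl (v, l, x) := by
  unfold cl
  refine Prod.ext rfl (Prod.ext rfl (funext fun l' => ?_))
  by_cases hv : v ∈ l'.1
  · simp [hv, (h l').1]
  · simp [hv, (h l').1, par_add, (h l').2 hv]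

theorem cl_eq {v : B m} {l : L m n} {x : Row m n} {b : U m n} (h : cl (v, l, x) = cl b) :
    ∃ y, b = (v, l, y) ∧ Adm v (x + y) := by
  obtain ⟨w, l', y⟩ := b
  obtain rfl : v = w := congrArg Prod.fst h
  obtain rfl : l = l' := congrArg (fun p => p.2.1) h
  refine ⟨y, rfl, fun l' => ?_⟩
  have h1 := congrFun (congrArg (fun p => p.2.2) h) l'
  simp only [cl, Prod.mk.injEq] at h1
  refine ⟨by simp [h1.1, CharTwo.add_self_eq_zero], fun hv => ?_⟩
  have h2 := h1.2
  simp only [hv, if_false] at h2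
  simp [par_add, h2, CharTwo.add_self_eq_zero]

def lift (γ : B m → Row m n) (x : U m n) : U m n := (x.1, x.2.1, x.2.2 + γ x.1)

theorem lift_lift (γ : B m → Row m n) (x : U m n) : lift γ (lift γ x) = x := by
  obtain ⟨v, l, x⟩ := x
  simp only [lift, Prod.mk.injEq, true_and]
  rw [add_comm x, add_comm, add_add_cancel']

def liftEquiv (γ : B m → Row m n) : U m n ≃ U m n where
  toFun := lift γ
  invFun := lift γ
  left_inv := lift_lift γ
  right_inv := lift_lift γ

theorem adj_lift (γ : B m → Row m n) (hγ : ∀ a l b, γ a l b = γ b l a) (x y : U m n) :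
    (DG m n).Adj (lift γ x) (lift γ y) ↔ (DG m n).Adj x y := by
  obtain ⟨v, l, x⟩ := x
  obtain ⟨w, l', y⟩ := y
  by_cases h : v = w
  · subst h
    simp only [lift, adj_same, add_left_inj]
  · simp only [lift, adj_diff h, Pi.add_apply, hγ v l w, add_left_inj]

def liftIso (γ : B m → Row m n) (hγ : ∀ a l b, γ a l b = γ b l a) : DG m n ≃g DG m n :=
  ⟨liftEquiv γ, fun {x y} => adj_lift γ hγ x y⟩

section core

variable {R : U m n → U m n → Prop} (hR : Bisim (DG m n) R) (hc : ∀ x y, R x y → cl x = cl y)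
include hR hc

theorem copy {v : B m} {l : L m n} {x y : Row m n} (h : R (v, l, x) (v, l, y)) (l' : L m n) :
    R (v, l', x) (v, l', y) := by
  by_cases hl : l = l'
  · exact hl ▸ h
  · obtain ⟨φ, hφ⟩ := hR _ _ h
    obtain ⟨h1, h2⟩ := hφ (v, l', x)
    obtain ⟨z, hz, -⟩ := cl_eq (hc _ _ h2)
    rw [hz] at h1 h2
    rw [adj_same, adj_same] at h1
    rw [(h1.2 ⟨hl, rfl⟩).2]
    exact h2

variable {p : B m} {l0 : L m n} {a a' : Row m n}
  (ha : ∀ x y, R x y → (x = (p, l0, a) ↔ y = (p, l0, a')))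
include ha

theorem core_diff {v : B m} (hv : v ≠ p) {l : L m n} {x y : Row m n}
    (h : R (v, l, x) (v, l, y)) (l' : L m n) : (x + y) l' p = (a + a') l' v := by
  obtain ⟨φ, hφ⟩ := hR _ _ (copy hR hc h l')
  obtain ⟨h1, h2⟩ := hφ (p, l', a)
  obtain ⟨z, hz, -⟩ := cl_eq (hc _ _ h2)
  rw [hz] at h1 h2
  have h3 := (ha _ _ (copy hR hc h2 l0)).1 rfl
  obtain rfl : z = a' := congrArg (fun q => q.2.2) h3
  rw [adj_diff hv, adj_diff hv] at h1
  simp only [true_and] at h1
  simp only [Pi.add_apply]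
  revert h1
  generalize x l' p = s, y l' p = t, a l' v = u, z l' v = w
  revert s t u w
  decide

theorem core_same (haa : Adm p (a + a')) {l : L m n} {x y : Row m n}
    (h : R (p, l, x) (p, l, y)) : x + y = a + a' := by
  funext l' t
  by_cases ht : t = p
  · obtain ⟨z, hz, hz'⟩ := cl_eq (hc _ _ h)
    obtain rfl : y = z := congrArg (fun q => q.2.2) hz
    rw [ht, (hz' l').1, (haa l').1]
  · obtain ⟨φ, hφ⟩ := hR _ _ (copy hR hc h l')
    obtain ⟨h1, h2⟩ := hφ (t, l', fun _ _ => x l' t)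
    obtain ⟨z, hz, -⟩ := cl_eq (hc _ _ h2)
    rw [hz] at h1 h2
    rw [adj_diff (Ne.symm ht), adj_diff (Ne.symm ht)] at h1
    have h3 := (h1.2 ⟨rfl, rfl⟩).2
    rw [← core_diff hR hc ha ht h2 l']
    simp only [Pi.add_apply, h3]

end core

theorem exists_ext (P : Finset (B m)) (hP : P.card ≤ n) (d : B m → Row m n)
    (hd : ∀ p ∈ P, Adm p (d p)) (hs : ∀ p ∈ P, ∀ q ∈ P, ∀ l, d p l q = d q l p) :
    ∃ γ : B m → Row m n, (∀ a l b, γ a l b = γ b l a) ∧ (∀ a, Adm a (γ a)) ∧
      ∀ p ∈ P, γ p = d p := by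
  have hfree : ∀ l : L m n, ∃ s ∈ l.1, s ∉ P := fun l =>
    Finset.exists_mem_notMem_of_card_lt_card (by rw [l.2]; omega)
  choose s hs1 hs2 using hfree
  let g : B m → Row m n := fun a l b => if a ∈ P then d a l b else if b ∈ P then d b l a else 0
  have hg : ∀ a l b, g a l b = g b l a := by
    intro a l b
    by_cases ha : a ∈ P <;> by_cases hb : b ∈ P <;> simp only [g, ha, hb, if_true, if_false]
    exact hs a ha b hb l
  refine ⟨fun a l b => g a l b +
    ∑ u ∈ univ.filter (fun u => u ∉ P ∧ u ≠ s l), edgeMat u (s l) (par u (g u l)) a b,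
    fun a l b => ?_, fun a l => ⟨?_, fun hal => ?_⟩, fun p hp => ?_⟩
  · beta_reduce
    rw [hg a l b]
    congr 1
    exact Finset.sum_congr rfl fun u _ => edgeMat_symm _ _ _ _ _
  · show g a l a + _ = 0
    rw [Finset.sum_eq_zero, add_zero]
    · by_cases ha : a ∈ P
      · simp only [g, ha, if_true]; exact (hd a ha l).1
      · simp only [g, ha, if_false]
    · intro u hu
      have := (Finset.mem_filter.1 hu).2.2
      unfold edgeMat
      rw [if_neg]
      rintro (⟨h1, h2⟩ | ⟨h1, h2⟩)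
      · exact this (h1.symm.trans h2)
      · exact this (h2.symm.trans h1)
  · have has : a ≠ s l := fun h => hal (h ▸ hs1 l)
    have e : ∀ (F : Finset (B m)) (f : B m → B m → ZMod 2),
        par a (fun b => g a l b + ∑ u ∈ F, f u b) = par a (g a l) + ∑ u ∈ F, par a (f u) := by
      intro F f
      unfold par
      rw [Finset.sum_add_distrib, Finset.sum_comm]
    refine (e _ (fun u => edgeMat u (s l) (par u (g u l)) a)).trans ?_
    simp only [Cay.par_edgeMat]
    by_cases ha : a ∈ P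
    · rw [Finset.sum_eq_zero, add_zero]
      · have : g a l = d a l := by funext b; simp only [g, ha, if_true]
        rw [this]; exact (hd a ha l).2 hal
      · intro u hu
        have hu' := (Finset.mem_filter.1 hu).2.1
        rw [if_neg]
        rintro ⟨-, h | h⟩
        · exact hu' (h ▸ ha)
        · exact has h
    · rw [Finset.sum_eq_single a]
      · rw [if_pos ⟨has, Or.inl rfl⟩, CharTwo.add_self_eq_zero]
      · intro u _ hua
        rw [if_neg]
        rintro ⟨-, h | h⟩
        · exact hua h.symm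
        · exact has h
      · intro h
        exact absurd (Finset.mem_filter.2 ⟨mem_univ _, ha, has⟩) h
  · funext l b
    beta_reduce
    rw [Finset.sum_eq_zero, add_zero]
    · simp only [g, hp, if_true]
    · intro u hu
      have hu' := (Finset.mem_filter.1 hu).2.1
      rw [edgeMat_of_ne]
      · rfl
      · exact fun h => hu' (h ▸ hp)
      · exact fun h => hs2 l (h ▸ hp)

variable {C : Type} {c : U m n → C} {Q : Finset (U m n)} {k : ℕ}

theorem col_lift (hI : Inv cl c Q) {γ : B m → Row m n} (h0 : ∀ p ∈ Q.image Prod.fst, γ p = 0)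
    {x : U m n} (hx : Adm x.1 (γ x.1)) : c (lift γ x) = c x := by
  by_cases h : x.1 ∈ Q.image Prod.fst
  · simp [lift, h0 _ h]
  · refine (hI _ _).2 (Or.inr ⟨fun h' => h ?_, fun h' => h (mem_image_of_mem _ h'), ?_⟩)
    · exact Finset.mem_image.2 ⟨_, h', rfl⟩
    · exact cl_add hx _ _

theorem orbit_of_row (hI : Inv cl c Q) (hQ : (Q.image Prod.fst).card < n) {w : B m}
    (hw : w ∉ Q.image Prod.fst) {r : Row m n} (hr : Adm w r)
    (h0 : ∀ q ∈ Q.image Prod.fst, ∀ l, r l q = 0) (l : L m n) (x : Row m n) :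
    SameOrbit (DG m n) c (w, l, x) (w, l, x + r) := by
  obtain ⟨γ, h1, h2, h3⟩ := exists_ext (insert w (Q.image Prod.fst))
    ((Finset.card_insert_le _ _).trans hQ) (fun p => if p = w then r else 0)
    (fun p _ => by
      by_cases h : p = w
      · simp only [h, if_true]; exact hr
      · simp only [h, if_false]; exact adm_zero _)
    (fun p hp q hq l => by
      by_cases h : p = w <;> by_cases h' : q = w
      · simp only [h, h']
      · simp only [h, h', if_true, if_false]
        exact h0 q ((Finset.mem_insert.1 hq).resolve_left h') l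
      · simp only [h, h', if_true, if_false]
        exact (h0 p ((Finset.mem_insert.1 hp).resolve_left h) l).symm
      · simp only [h, h', if_false]; rfl)
  refine ⟨liftIso γ h1, fun y => col_lift hI (fun p hp => ?_) (h2 _), ?_⟩
  · rw [h3 p (mem_insert_of_mem hp), if_neg (fun h : p = w => hw (h ▸ hp))]
  · show lift γ _ = _
    simp only [lift, h3 w (mem_insert_self _ _), if_true]

theorem fixed_of_bisim (hI : Inv cl c Q) {R : U m n → U m n → Prop} (hR : Bisim (DG m n) R)
    (hc : ∀ x y, R x y → c x = c y) {x y : U m n} (h : R x y) (hx : x.1 ∈ Q.image Prod.fst) :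
    y = x := by
  obtain ⟨⟨p, l0, a⟩, hq, hp⟩ := Finset.mem_image.1 hx
  obtain ⟨v, l, x⟩ := x
  obtain rfl : p = v := hp
  obtain ⟨z, rfl, -⟩ := cl_eq (hI.col (hc _ _ h))
  have e : a + a = 0 := by funext l b; simp [CharTwo.add_self_eq_zero]
  have := core_same hR (fun x y h => hI.col (hc x y h)) (fun x y h => hI.anchor hq (hc x y h))
    (by rw [e]; exact adm_zero _) h
  rw [e] at this
  rw [← add_add_cancel' x z, this, add_zero]

theorem refines (hk : 2 ≤ k) (hI : Inv cl c Q) (hQ : (Q.image Prod.fst).card < n) :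
    RefinesToOrbits k (DG m n) c := by
  classical
  intro x y
  refine ⟨fun h => ?_, sameColour_of_sameOrbit⟩
  obtain ⟨R, hR, hxy, hc⟩ := col_bisim hk h
  by_cases hx : x.1 ∈ Q.image Prod.fst
  · rw [fixed_of_bisim hI hR hc hxy hx]
    exact ⟨RelIso.refl _, fun _ => rfl, rfl⟩
  · obtain ⟨w, l, x⟩ := x
    obtain ⟨z, rfl, hz⟩ := cl_eq (hI.col (hc _ _ hxy))
    have := orbit_of_row hI hQ hx hz (fun q hq l' => ?_) l x
    · rwa [add_add_cancel'] at this
    · obtain ⟨⟨p, l0, a⟩, hq', rfl⟩ := Finset.mem_image.1 hq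
      rw [core_diff hR (fun x y h => hI.col (hc x y h)) (fun x y h => hI.anchor hq' (hc x y h))
        (fun h : w = p => hx (by rw [← h] at hq; exact hq)) hxy l']
      simp [CharTwo.add_self_eq_zero]

theorem exists_layer (hm : n ≤ m) : Nonempty (L m n) := by
  obtain ⟨T, -, hT⟩ := Finset.exists_subset_card_eq (s := (univ : Finset (B m))) (n := n + 1)
    (by simp; omega)
  exact ⟨⟨T, hT⟩⟩

theorem exists_big (hm : n ≤ m) (hI : Inv cl c Q) (hQ : (Q.image Prod.fst).card < n) :
    ∃ v, InBigClass k (DG m n) c v := by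
  classical
  obtain ⟨l⟩ := exists_layer hm
  set P := Q.image Prod.fst with hP
  obtain ⟨w, hw⟩ := Cay.exists_fresh P (by omega)
  have c1 := Finset.card_insert_le w P
  obtain ⟨w1, hw1⟩ := Cay.exists_fresh (insert w P) (by omega)
  have c2 := Finset.card_insert_le w1 (insert w P)
  obtain ⟨w2, hw2⟩ := Cay.exists_fresh (insert w1 (insert w P)) (by omega)
  simp only [Finset.mem_insert, not_or] at hw1 hw2
  have h := orbit_of_row hI hQ hw (r := fun _ => Pi.single w1 1 + Pi.single w2 1)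
    (fun l' => ⟨by simp [Ne.symm hw1.1, Ne.symm hw2.2.1], fun _ => by
      rw [par_add, par_single _ _ (Ne.symm hw1.1), par_single _ _ (Ne.symm hw2.2.1)]
      rfl⟩)
    (fun q hq l' => by
      have h1 : q ≠ w1 := fun h => hw1.2 (h ▸ hq)
      have h2 : q ≠ w2 := fun h => hw2.2.2 (h ▸ hq)
      simp [h1, h2]) l 0
  refine ⟨_, _, fun e => ?_, sameColour_of_sameOrbit h⟩
  have := congrFun (congrFun (congrArg (fun q : U m n => q.2.2) e) l) w1
  simp [Ne.symm hw2.1] at this

def Good (Q : Finset (U m n)) (f : U m n → U m n) (A : Finset (U m n)) : Prop :=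
  ∃ γ : B m → Row m n, (∀ a l b, γ a l b = γ b l a) ∧ (∀ a l, γ a l a = 0) ∧
    (∀ p ∈ Q.image Prod.fst, γ p = 0) ∧ (∀ x ∈ A, Adm x.1 (γ x.1)) ∧ f = lift γ

theorem edgeMat_diag {a b : B m} (hab : a ≠ b) (z : ZMod 2) (u : B m) : edgeMat a b z u u = 0 := by
  unfold edgeMat
  rw [if_neg]
  rintro (⟨h1, h2⟩ | ⟨h1, h2⟩)
  · exact hab (h1.symm.trans h2)
  · exact hab (h2.symm.trans h1)

theorem backForth (hI : Inv cl c Q) (hm : (Q.image Prod.fst).card + k ≤ m) :
    BackForth k (DG m n) c (Good Q) := by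
  refine ⟨?_, ?_, ?_, ?_, ?_⟩
  · rintro f A A' ⟨γ, h1, h2, h3, h4, h5⟩ hA
    exact ⟨γ, h1, h2, h3, fun x hx => h4 x (hA hx), h5⟩
  · rintro f A ⟨γ, h1, h2, h3, h4, rfl⟩ x - y -
    exact (liftEquiv γ).injective.eq_iff
  · rintro f A ⟨γ, h1, h2, h3, h4, rfl⟩ x - y -
    exact adj_lift γ h1 x y
  · rintro f A ⟨γ, h1, h2, h3, h4, rfl⟩ x hx
    exact col_lift hI h3 (h4 x hx)
  · rintro f A ⟨γ, h1, h2, h3, h4, rfl⟩ hA
    have key : ∀ w : B m, ∃ δ : B m → Row m n, (∀ a l b, δ a l b = δ b l a) ∧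
        (∀ a l, δ a l a = 0) ∧ (∀ a ∈ Q.image Prod.fst ∪ A.image Prod.fst, δ a = γ a) ∧
        Adm w (δ w) := by
      intro w
      by_cases hw : w ∈ Q.image Prod.fst ∪ A.image Prod.fst
      · refine ⟨γ, h1, h2, fun _ _ => rfl, ?_⟩
        rcases Finset.mem_union.1 hw with h | h
        · rw [h3 w h]; exact adm_zero _
        · obtain ⟨x, hx, rfl⟩ := Finset.mem_image.1 h
          exact h4 x hx
      · have c1 := Finset.card_insert_le w (Q.image Prod.fst ∪ A.image Prod.fst)
        have c2 := Finset.card_union_le (Q.image Prod.fst) (A.image Prod.fst)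
        have c3 := Finset.card_image_le (s := A) (f := Prod.fst)
        obtain ⟨w', hw'⟩ := Cay.exists_fresh (insert w (Q.image Prod.fst ∪ A.image Prod.fst))
          (by omega)
        rw [Finset.mem_insert, not_or] at hw'
        have hd : ∀ a l, γ a l a + edgeMat w w' (par w (γ w l)) a a = 0 := fun a l => by
          rw [h2, edgeMat_diag (Ne.symm hw'.1), add_zero]
        refine ⟨fun a l => γ a l + edgeMat w w' (par w (γ w l)) a, fun a l b => ?_, hd,
          fun a ha => funext fun l => ?_, fun l => ⟨hd w l, fun _ => ?_⟩⟩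
        · simp only [Pi.add_apply, h1 a l b, edgeMat_symm w w' _ a b]
        · beta_reduce
          rw [edgeMat_of_ne, add_zero]
          · exact fun h => hw (h ▸ ha)
          · exact fun h => hw'.2 (h ▸ ha)
        · simp only [par_add, Cay.par_edgeMat]
          rw [if_pos ⟨Ne.symm hw'.1, Or.inl trivial⟩, CharTwo.add_self_eq_zero]
    choose δ hδ1 hδ2 hδ3 hδ4 using key
    refine ⟨liftEquiv fun w => δ w w, fun x => ⟨lift (δ x.1), ⟨δ x.1, hδ1 _, hδ2 _, ?_, ?_, rfl⟩,
      ?_, rfl⟩⟩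
    · intro p hp
      rw [hδ3 _ _ (mem_union_left _ hp), h3 p hp]
    · intro y hy
      rcases Finset.mem_insert.1 hy with rfl | h
      · exact hδ4 _
      · rw [hδ3 _ _ (mem_union_right _ (mem_image_of_mem _ h))]
        exact h4 y h
    · intro y hy
      simp only [lift, hδ3 _ _ (mem_union_right _ (mem_image_of_mem _ hy))]

theorem not_refines (hI : Inv cl c Q) (hQ : (Q.image Prod.fst).card = n) (hm : n + k ≤ m) :
    ¬ RefinesToOrbits k (DG m n) c := by
  intro href
  set P := Q.image Prod.fst with hP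
  obtain ⟨w, hw⟩ := Cay.exists_fresh P (by omega)
  have c1 : (insert w P).card = n + 1 := by rw [Finset.card_insert_of_notMem hw, hQ]
  obtain ⟨t, ht⟩ := Cay.exists_fresh (insert w P) (by omega)
  let T : L m n := ⟨insert w P, c1⟩
  rw [Finset.mem_insert, not_or] at ht
  have hg : Good Q (lift fun a l => edgeMat w t (if l = T then 1 else 0) a)
      {((w, T, 0) : U m n)} := by
    refine ⟨fun a l => edgeMat w t (if l = T then 1 else 0) a,
      fun a l b => edgeMat_symm _ _ _ _ _, fun a l => edgeMat_diag (Ne.symm ht.1) _ _,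
      fun p hp => funext fun l => edgeMat_of_ne _ _ _ _ (fun h => hw (h ▸ hp))
        (fun h => ht.2 (h ▸ hp)), fun x hx l => ⟨edgeMat_diag (Ne.symm ht.1) _ _, fun hl => ?_⟩, rfl⟩
    obtain rfl := Finset.mem_singleton.1 hx
    have : l ≠ T := fun h => hl (by rw [h]; exact mem_insert_self w P)
    simp [Cay.par_edgeMat, this]
  obtain ⟨φ, hc, hu⟩ := (href _ _).1
    (sameColour_of_good (backForth hI (by rw [← hP]; omega)) _ _ hg)
  have h1 : ∀ a : B m, ∃ y, φ (a, T, 0) = (a, T, y) ∧ Adm a (0 + y) :=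
    fun a => cl_eq (hI.col (hc _).symm)
  choose y hy1 hy2 using h1
  have hsum := sum_par_symm (fun a => y a T) (fun a b hab => by
    have : (DG m n).Adj (φ (a, T, 0)) (φ (b, T, 0)) :=
      φ.map_adj_iff.2 ((adj_diff hab _ _ _ _).2 ⟨rfl, rfl⟩)
    rw [hy1, hy1, adj_diff hab] at this
    exact this.2)
  rw [Finset.sum_eq_single w] at hsum
  · rw [hy1] at hu
    have h2 := congrFun (congrArg (fun q : U m n => q.2.2) hu) T
    simp only [lift, zero_add, if_true] at h2
    rw [h2, Cay.par_edgeMat, if_pos ⟨Ne.symm ht.1, Or.inl rfl⟩] at hsum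
    exact one_ne_zero hsum
  · intro b _ hb
    by_cases hbP : b ∈ P
    · have := fixed_of_bisim hI (bisim_iso φ) (fun x y h => h ▸ (hc x).symm)
        (x := (b, T, 0)) rfl hbP
      rw [hy1] at this
      have h2 : y b = 0 := congrArg (fun q : U m n => q.2.2) this
      simp [h2, par]
    · have := (hy2 b T).2 (fun h => (Finset.mem_insert.1 h).elim hb hbP)
      rwa [zero_add] at this
  · simp

theorem failsFirstAt (hk : 2 ≤ k) (hm : n + k ≤ m) : ∀ (i : ℕ) {C : Type} (c : U m n → C)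
    (Q : Finset (U m n)), Inv cl c Q → (Q.image Prod.fst).card + i = n →
      FailsFirstAt k (DG m n) i c
  | 0, _, c, Q, hI, hQ => not_refines hI hQ hm
  | i + 1, _, c, Q, hI, hQ => by
    refine ⟨refines hk hI (by omega), exists_big (by omega) hI (by omega), ?_⟩
    rintro v ⟨w, hwv, hw⟩
    obtain ⟨R, hR, hxy, hc⟩ := col_bisim hk hw
    have hv : v.1 ∉ Q.image Prod.fst := fun h => hwv (fixed_of_bisim hI hR hc hxy h)
    refine failsFirstAt hk hm i _ _ (hI.step v) ?_
    rw [Finset.image_insert, Finset.card_insert_of_notMem hv]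
    omega

theorem refinesTuples (hk : k ≤ n) : RefinesTuplesToOrbits k (DG m n) cl := by
  intro S S'
  constructor
  · intro h
    have h0 : ∀ i, ∃ y, S' i = ((S i).1, (S i).2.1, y) ∧ Adm (S i).1 ((S i).2.2 + y) :=
      fun i => cl_eq (col_of_wl h i)
    choose y hy1 hy2 using h0
    have pair : ∀ i j, ((S j).1 ≠ (S i).1 → ∀ l,
        ((S j).2.2 + y j) l (S i).1 = ((S i).2.2 + y i) l (S j).1) ∧
        ((S j).1 = (S i).1 → (S j).2.2 + y j = (S i).2.2 + y i) := by
      intro i j
      by_cases hij : j = i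
      · subst hij
        exact ⟨fun h => absurd rfl h, fun _ => rfl⟩
      · obtain ⟨R, hR, hc, ha, hj⟩ := anchored_bisim h i
        have hj' := hj j hij
        rw [hy1 i] at ha
        rw [hy1 j] at hj'
        refine ⟨fun hne l => core_diff hR hc ha hne hj' l, fun he => ?_⟩
        have hj'' : R ((S j).1, (S j).2.1, (S j).2.2) ((S j).1, (S j).2.1, y j) := hj'
        rw [he] at hj''
        exact core_same hR hc ha (hy2 i) hj''
    have hd : ∀ p : B m, ∃ r : Row m n, ∀ i, (S i).1 = p → r = (S i).2.2 + y i := by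
      intro p
      by_cases hp : ∃ i, (S i).1 = p
      · obtain ⟨i, hi⟩ := hp
        exact ⟨_, fun j hj => (pair j i).2 (hi.trans hj.symm)⟩
      · exact ⟨0, fun i hi => absurd ⟨i, hi⟩ hp⟩
    choose d hd using hd
    obtain ⟨γ, h1, h2, h3⟩ := exists_ext (univ.image fun i => (S i).1)
      ((card_image_le_of_tuple _).trans hk) d
      (fun p hp => by
        obtain ⟨i, -, rfl⟩ := Finset.mem_image.1 hp
        rw [hd _ i rfl]; exact hy2 i)
      (fun p hp q hq l => by
        obtain ⟨i, -, rfl⟩ := Finset.mem_image.1 hp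
        obtain ⟨j, -, rfl⟩ := Finset.mem_image.1 hq
        by_cases he : (S i).1 = (S j).1
        · rw [he]
        · rw [hd _ i rfl, hd _ j rfl]; exact (pair j i).1 he l)
    refine ⟨liftIso γ h1, fun x => cl_add (h2 _) _ _, fun i => ?_⟩
    show lift γ _ = _
    rw [hy1 i, lift, h3 _ (mem_image_of_mem _ (mem_univ i)), hd _ i rfl, add_add_cancel']
  · rintro ⟨φ, hφ, hS⟩
    rw [stable_of_iso φ hφ S]
    congr 1
    exact funext hS

theorem connected (hm : n ≤ m) : (DG m n).Connected := by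
  obtain ⟨l0⟩ := exists_layer hm
  have zero : ∀ (v : B m) (l : L m n), (DG m n).Reachable (v, l, 0) (0, l0, 0) := by
    intro v l
    have s1 : (DG m n).Reachable (v, l, 0) (v, l0, 0) := by
      by_cases h : l = l0
      · rw [h]
      · exact SimpleGraph.Adj.reachable ((adj_same _ _ _ _ _).2 ⟨h, rfl⟩)
    refine s1.trans ?_
    by_cases h : v = 0
    · rw [h]
    · exact SimpleGraph.Adj.reachable ((adj_diff h _ _ _ _).2 ⟨rfl, rfl⟩)
  have all : ∀ x : U m n, (DG m n).Reachable x (0, l0, 0) := by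
    rintro ⟨v, l, x⟩
    obtain ⟨w, hw⟩ := Cay.exists_fresh {v} (by simp)
    obtain ⟨u, hu⟩ := Cay.exists_fresh {v, w}
      (by have := Finset.card_le_two (a := v) (b := w); omega)
    simp only [Finset.mem_insert, Finset.mem_singleton, not_or] at hw hu
    have s1 : (DG m n).Adj (v, l, x) (w, l, fun _ => Pi.single v (x l w)) :=
      (adj_diff (Ne.symm hw) _ _ _ _).2 ⟨rfl, by simp⟩
    have s2 : (DG m n).Adj (w, l, fun _ => Pi.single v (x l w)) (u, l, 0) :=
      (adj_diff (Ne.symm hu.2) _ _ _ _).2 ⟨rfl, by simp [hu.1]⟩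
    exact s1.reachable.trans (s2.reachable.trans (zero u l))
  have : Nonempty (U m n) := ⟨(0, l0, 0)⟩
  exact ⟨fun a b => (all a).trans (all b).symm⟩

end Pool.Agent.Lib.MP_493565_co.Dep
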